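import Mathlib

set_option autoImplicit false

namespace Pool.Agent.Results.MP_7df46e_an.Yes

open Set Filter Topology Metric
open scoped unitInterval

/-- the binary digit number `k + 1` of the expansion that is not eventually zero equals one -/
def dg (x : ℝ) (k : ℕ) : Prop := Odd (⌈2 ^ (k + 1) * x⌉ - 1)

open Classical in
/-- the interval map -/
noncomputable def R (x : ℝ) : ℝ :=
  if x = 0 then 2 / 3 else ∑' j, (if Even (Nat.nth (dg x) j + 1) then 1 else 0) / 2 ^ (j + 1)

/-- points with dense orbit -/
def E : Set I := {x | Icc 0 1 ⊆ closure (range fun n => R^[n] x)}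

/-- left end of a dyadic interval -/
noncomputable def lo : List Bool → ℝ
  | [] => 0
  | b :: w => (b.toNat + lo w) / 2

/-- open dyadic interval -/
def O (w : List Bool) : Set ℝ := Ioo (lo w) (lo w + 1 / 2 ^ w.length)

/-- closed dyadic interval -/
def J (w : List Bool) : Set ℝ := Icc (lo w) (lo w + 1 / 2 ^ w.length)

/-- the substitution on words -/
def rho : Bool → List Bool → List Bool
  | _, [] => []
  | e, b :: w => if b then e :: rho (!e) w else rho (!e) w

theorem lo_app (w v : List Bool) : lo (w ++ v) = lo w + lo v / 2 ^ w.length := by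
  induction w with
  | nil => simp [lo]
  | cons b w ih => simp only [List.cons_append, lo, ih, List.length_cons]; ring

theorem lo_bd (w : List Bool) : 0 ≤ lo w ∧ lo w + 1 / 2 ^ w.length ≤ 1 := by
  induction w with
  | nil => simp [lo]
  | cons b w ih =>
    simp only [lo, List.length_cons, pow_succ, ← div_div]
    cases b <;> simp only [Bool.toNat_true, Bool.toNat_false] <;> push_cast <;>
      constructor <;> linarith [ih.1, ih.2]

theorem O_app (w v : List Bool) : O (w ++ v) ⊆ O w := by
  have := lo_bd v
  refine Ioo_subset_Ioo (by rw [lo_app]; exact le_add_of_nonneg_right (div_nonneg this.1 (by positivity))) ?_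
  rw [lo_app, List.length_append, pow_add, mul_comm, ← div_div, add_assoc, ← add_div]
  gcongr
  exact this.2

theorem sb (v : List Bool) (y : ℝ) (hy : y ∈ J v) (ε : ℝ) (h : 0 < ε) : ∃ t, J (v ++ t) ⊆ ball y ε := by
  have : ∀ n, ∃ t : List Bool, t.length = n ∧ y ∈ J (v ++ t) := fun n => by
    induction n with
    | zero => exact ⟨[], rfl, by simpa using hy⟩
    | succ n ih =>
      obtain ⟨t, a, b, c⟩ := ih
      refine ⟨t ++ [decide (lo (v ++ t) + 1 / 2 ^ (v ++ t).length / 2 ≤ y)], by simp [a], ?_⟩
      rw [← List.append_assoc]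
      generalize v ++ t = u at b c
      simp only [J, lo_app, lo, List.length_append, List.length_singleton, pow_succ, ← div_div]
      by_cases e : lo u + 1 / 2 ^ u.length / 2 ≤ y
      · simp only [e, decide_true, Bool.toNat_true, Nat.cast_one, add_zero, div_right_comm _ (2 : ℝ)]
        exact ⟨e, by linarith⟩
      · simp only [e, decide_false, Bool.toNat_false, Nat.cast_zero, add_zero, zero_div]
        exact ⟨b, (not_le.1 e).le⟩
  obtain ⟨n, hn⟩ := exists_pow_lt_of_lt_one h one_half_lt_one
  obtain ⟨t, a, b, c⟩ := this n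
  refine ⟨t, fun z ⟨d, e⟩ => ?_⟩
  have : 1 / (2 : ℝ) ^ (v ++ t).length ≤ (1 / 2) ^ n := by
    rw [one_div_pow]
    gcongr <;> simp [← a]
  rw [mem_ball, Real.dist_eq, abs_lt]
  constructor <;> linarith

open Classical in
theorem dig (w : List Bool) : ∀ x ∈ O w, w = (List.range w.length).map fun k => decide (dg x k) := by
  induction w with
  | nil => simp
  | cons b w ih =>
    rintro x ⟨h1, h2⟩
    simp only [lo, List.length_cons, pow_succ, ← div_div] at h1 h2
    have hy : 2 * x - b.toNat ∈ O w := ⟨by linarith, by linarith⟩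
    have := lo_bd w
    rw [List.length_cons, List.range_succ_eq_map, List.map_cons, List.map_map]
    congr 1
    · have : ⌈2 ^ (0 + 1) * x⌉ = b.toNat + 1 :=
        Int.ceil_eq_iff.2 ⟨by push_cast; linarith [hy.1], by push_cast; linarith [hy.2]⟩
      simp only [dg, this]
      cases b <;> simp
    · refine (ih _ hy).trans (List.map_congr_left fun k _ => ?_)
      have : ⌈2 ^ (k + 1 + 1) * x⌉ = ⌈2 ^ (k + 1) * (2 * x - b.toNat)⌉ + (2 * (2 ^ k * b.toNat) : ℕ) := by
        rw [← Int.ceil_add_natCast]
        congr 1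
        push_cast
        ring
      simp only [dg, Function.comp, Nat.succ_eq_add_one, this, decide_eq_decide]
      grind

theorem rho_app (w v : List Bool) : ∀ e, rho e (w ++ v) = rho e w ++ rho (e ^^ decide (Odd w.length)) v := by
  induction w with
  | nil => simp [rho]
  | cons b w ih =>
    intro e
    have : ((!e) ^^ decide (Odd w.length)) = (e ^^ decide (Odd (w.length + 1))) := by
      by_cases h : Odd w.length <;> cases e <;> simp [Nat.odd_add_one, h]
    cases b <;> simp [rho, ih, this]

open Classical in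
theorem cnt (p : ℕ → Prop) (L : ℕ) :
    Nat.count p L = (rho false ((List.range L).map fun k => decide (p k))).length ∧
    ∑ j ∈ Finset.range (Nat.count p L), ((if Even (Nat.nth p j + 1) then 1 else 0) / 2 ^ (j + 1) : ℝ) =
      lo (rho false ((List.range L).map fun k => decide (p k))) := by
  induction L with
  | zero => simp [rho, lo]
  | succ L ih =>
    rw [List.range_succ, List.map_append, rho_app, lo_app, List.length_append, ← ih.1, ← ih.2,
      Nat.count_succ]
    by_cases h : p L
    · simp only [h, if_true, Finset.sum_range_succ, Nat.nth_count h]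
      by_cases e : Odd L <;> simp [rho, h, lo, e, Nat.even_add_one, Nat.not_even_iff_odd]
      ring
    · simp [rho, h, lo]

theorem img (w : List Bool) (x : ℝ) (hx : x ∈ O w) : R x ∈ J (rho false w) := by
  classical
  obtain ⟨a, b⟩ := cnt (dg x) w.length
  rw [← dig w x hx] at a b
  rw [R, if_neg ((lo_bd w).1.trans_lt hx.1).ne', J, ← a, ← b]
  have g : ∀ n, HasSum (fun j : ℕ => (1 : ℝ) / 2 ^ (j + n + 1)) (1 / 2 ^ n) := fun n => by
    convert hasSum_geometric_two' (1 / 2 ^ n) using 2
    ring
  have l : ∀ j, ((if Even (Nat.nth (dg x) j + 1) then 1 else 0) / 2 ^ (j + 1) : ℝ) ≤ 1 / 2 ^ (j + 1) :=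
    fun j => by gcongr; split_ifs <;> simp
  have s := Summable.of_nonneg_of_le (fun j => by positivity) l (g 0).summable
  rw [← s.sum_add_tsum_nat_add (Nat.count (dg x) w.length)]
  refine ⟨le_add_of_nonneg_right (tsum_nonneg fun j => by positivity), add_le_add_right ?_ _⟩
  exact (((summable_nat_add_iff _).2 s).tsum_le_tsum (fun j => l _) (g _).summable).trans_eq
    (g _).tsum_eq

theorem sur (t : List Bool) : ∀ e, ∃ s, rho e s = t := by
  induction t with
  | nil => exact fun e => ⟨[], rfl⟩
  | cons b t ih =>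
    intro e
    by_cases h : b = e
    · obtain ⟨s, hs⟩ := ih (!e)
      exact ⟨true :: s, by simp [rho, hs, h]⟩
    · obtain ⟨s, hs⟩ := ih e
      exact ⟨false :: true :: s, by simp [rho, hs, Bool.eq_not.2 h]⟩

theorem dec (w : List Bool) : (∀ e, (rho e w).length = w.count true) ∧
    2 * (rho false w).count true ≤ w.length ∧ 2 * (rho true w).count true ≤ w.length + 1 := by
  induction w with
  | nil => simp [rho]
  | cons b w ih => cases b <;> simp [rho, ih.1] <;> omega

theorem ne (w : List Bool) : (O w).Nonempty := nonempty_Ioo.2 (by simp)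

theorem key (u : List Bool) (w : List Bool) : ∃ n v, O v ⊆ O w ∧ MapsTo R^[n] (O v) (O u) := by
  induction h : w.length + w.count true using Nat.strong_induction_on generalizing w with
  | _ m ih =>
    rcases eq_or_ne w [] with rfl | hw
    · exact ⟨0, u, O_app [] u, mapsTo_id _⟩
    have := List.length_pos_iff.2 hw
    obtain ⟨n, v, a, b⟩ := ih _ (by have := (dec w).2.1; rw [(dec w).1]; omega) (rho false w) rfl
    obtain ⟨y, hy⟩ := ne v
    obtain ⟨ε, e0, he⟩ := Metric.isOpen_iff.1 isOpen_Ioo y hy
    obtain ⟨t, ht⟩ := sb _ y (Ioo_subset_Icc_self (a hy)) ε e0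
    obtain ⟨s, hs⟩ := sur t (false ^^ decide (Odd w.length))
    refine ⟨n + 1, w ++ s, O_app _ _, fun x hx => b (he (ht ?_))⟩
    rw [← hs, ← rho_app]
    exact img _ x hx

theorem result : E ∈ residual I ∧ ¬ IsMeagre E := by
  have : E ∈ residual I := by
    have : ∀ u, ⋃ (n) (v) (_ : MapsTo R^[n] (O v) (O u)), Subtype.val ⁻¹' O v ∈ residual I := fun u => by
      refine residual_of_dense_open (isOpen_iUnion fun n => isOpen_iUnion fun v => isOpen_iUnion fun _ =>
        isOpen_Ioo.preimage continuous_subtype_val) (Metric.dense_iff.2 fun x ε e0 => ?_)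
      obtain ⟨t, ht⟩ := sb [] x (by simpa [J, lo] using x.2) ε e0
      obtain ⟨n, v, a, b⟩ := key u ([] ++ t)
      obtain ⟨y, hy⟩ := ne v
      exact ⟨⟨y, (lo_bd v).1.trans hy.1.le, hy.2.le.trans (lo_bd v).2⟩, ht (Ioo_subset_Icc_self (a hy)),
        by simpa using ⟨n, v, b, hy⟩⟩
    filter_upwards [countable_iInter_mem.2 this] with x hx y hy
    refine Metric.mem_closure_iff.2 fun ε e0 => ?_
    obtain ⟨t, ht⟩ := sb [] y (by simpa [J, lo] using hy) ε e0
    simp only [mem_iInter, mem_iUnion] at hx
    obtain ⟨n, v, a, b⟩ := hx ([] ++ t)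
    exact ⟨_, ⟨n, rfl⟩, mem_ball'.1 (ht (Ioo_subset_Icc_self (a b)))⟩
  exact ⟨this, fun h => by
    simpa using (dense_of_mem_residual (inter_mem this h)).nonempty⟩

end Pool.Agent.Results.MP_7df46e_an.Yes
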